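import Pool.Agent.H85.TG.Stmts

/-!
# Times with live windows: larger sample spaces, additional side information
-/

set_option autoImplicit false

namespace Pool.KA

open Finset Real
open Pool.Agent.H49.Ent Pool.Agent.H32.Dense Pool.STK

/-- **(EXT)** -/
theorem tgx_thm : TGXStmt := by
  intro m J F s Ω' _ q hq pr hM K η r n e
  have hpos : ∀ w, 0 < q w → 0 < F.p (pr w) := fun w hw => hM.pos hq.nonneg hw
  have hker : ∀ μ : F.Ω → ℕ → ℝ, F.Ker μ → (F.ext q hq pr).Ker (fun w => μ (pr w)) := by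
    intro μ h
    refine ⟨fun w t => h.nonneg (pr w) t, fun w => h.sum (pr w), fun w hw => h.pos (pr w)
      (hpos w hw), ?_⟩
    intro w w' hw hw' hE
    exact h.det (pr w) (pr w') (hpos w hw) (hpos w' hw') hE
  have hdet : ∀ μ : F.Ω → ℕ → ℝ, (s → Det F.p F.Z μ) →
      (s → Det (F.ext q hq pr).p (F.ext q hq pr).Z (fun w => μ (pr w))) := by
    intro μ h hs w w' hw hw' hE
    exact h hs (pr w) (pr w') (hpos w hw) (hpos w' hw') hE
  have hlive : ∀ μ : F.Ω → ℕ → ℝ, F.Live μ K η r n →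
      (F.ext q hq pr).Live (fun w => μ (pr w)) K η r n :=
    fun μ h w hw => h (pr w) (hpos w hw)
  have hkl : ∀ μ : F.Ω → ℕ → ℝ, (F.ext q hq pr).kl (fun w => μ (pr w)) = F.kl μ := by
    intro μ
    unfold Fam.kl
    have h1 := hM.ex (fun ω => -Real.log (μ ω (F.T ω)))
    have h2 := hM.CH F.T (fun ω => (F.l ω, F.Z ω))
    rw [← h1, ← h2]
    rfl
  constructor
  · rintro ⟨μ, h1, h2, h3, h4⟩
    exact ⟨fun w => μ (pr w), hker μ h1, hdet μ h2, hlive μ h3, (hkl μ).le.trans h4⟩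
  · rintro ⟨μ, h1, h2, h3, h4, M, h5⟩
    exact ⟨fun w => μ (pr w), hker μ h1, hdet μ h2, hlive μ h3, (hkl μ).le.trans h4, M,
      fun w hw => h5 (pr w) (hpos w hw)⟩

/-- **(CND)** -/
theorem tgc_thm : TGCStmt := by
  intro m J F s κ z K η r n e e' hF hz
  obtain ⟨μ, h1, h2, h3, h4⟩ := hF
  have hp := F.isLaw.nonneg
  refine ⟨μ, ⟨h1.nonneg, h1.sum, h1.pos, ?_⟩, ?_, h3, ?_⟩
  · intro w w' hw hw' hE
    have hE' : (F.l w, (z w, F.Z w)) = (F.l w', (z w', F.Z w')) := hE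
    simp only [Prod.mk.injEq] at hE'
    exact h1.det w w' hw hw' (Prod.ext hE'.1 hE'.2.2)
  · intro hs w w' hw hw' hE
    have hE' : (z w, F.Z w) = (z w', F.Z w') := hE
    exact h2 hs w w' hw hw' (Prod.ext_iff.1 hE').2
  · have e1 : CH F.p F.T (fun ω => (F.l ω, (z ω, F.Z ω))) =
        CH F.p F.T (fun ω => (z ω, (F.l ω, F.Z ω))) := by
      refine CH_congr hp ?_ ?_ ?_ ?_ <;>
      · intro ω ω' _ _ h
        simp only [Prod.mk.injEq] at h ⊢
        tauto
    have e2 := CH_chain hp F.T z (fun ω => (F.l ω, F.Z ω))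
    have e3 := CH_chain hp z F.T (fun ω => (F.l ω, F.Z ω))
    have e4 : CH F.p (fun ω => (F.T ω, z ω)) (fun ω => (F.l ω, F.Z ω)) =
        CH F.p (fun ω => (z ω, F.T ω)) (fun ω => (F.l ω, F.Z ω)) := by
      refine CH_congr hp ?_ ?_ (fun _ _ _ _ h => h) (fun _ _ _ _ h => h) <;>
      · intro ω ω' _ _ h
        simp only [Prod.mk.injEq] at h ⊢
        tauto
    unfold Fam.kl at h4
    show Ex F.p (fun ω => -Real.log (μ ω (F.T ω))) -
      CH F.p F.T (fun ω => (F.l ω, (z ω, F.Z ω))) ≤ e + e'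
    rw [e1]
    linarith

end Pool.KA
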